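import Mathlib

set_option autoImplicit false

namespace Pool.Agent.Results.MP_cc4673_an.Product

open Filter

/-- `h` has the L-property on the sequence `z`. -/
def LProp {n : ℕ} (h : EuclideanSpace ℂ (Fin n) → ℂ) (z : ℕ → EuclideanSpace ℂ (Fin n)) : Prop :=
  ∀ K : Set ℂ, IsCompact K → K ⊆ Set.range h → {k | h (z k) ∈ K}.Finite

/-- `(f, g)` is an ordered L-pair. -/
def LPair {n : ℕ} (f g : EuclideanSpace ℂ (Fin n) → ℂ) : Prop :=
  ∀ z : ℕ → EuclideanSpace ℂ (Fin n), Tendsto (fun k => ‖z k‖) atTop atTop →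
    LProp f z → LProp g z

/-- `a` is an L-atom. -/
def LAtom {n : ℕ} (a : EuclideanSpace ℂ (Fin n) → ℂ) : Prop :=
  Differentiable ℂ a ∧ (∃ x y, a x ≠ a y) ∧
    ∀ f : EuclideanSpace ℂ (Fin n) → ℂ, Differentiable ℂ f → LPair f a →
      ∃ φ : ℂ → ℂ, DifferentiableOn ℂ φ (Set.range a) ∧ ∀ x, f x = φ (a x)

lemma diff2 {u v : ℂ → ℂ} (hu : Differentiable ℂ u) (hv : Differentiable ℂ v) :
    Differentiable ℂ fun s => (!₂[u s, v s] : EuclideanSpace ℂ (Fin 2)) := by
  rw [differentiable_euclidean]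
  intro i
  fin_cases i
  · exact hu
  · exact hv

lemma eta (x : EuclideanSpace ℂ (Fin 2)) : x = !₂[x 0, x 1] := by
  ext i; fin_cases i <;> rfl

lemma bdd {f : EuclideanSpace ℂ (Fin 2) → ℂ} (hf : Differentiable ℂ f)
    (h : LPair f fun x => x 0 * x 1) (c : ℂ) :
    ∃ M : ℝ, ∀ x : EuclideanSpace ℂ (Fin 2), x 0 * x 1 = c → ‖f x‖ ≤ M := by
  by_contra hc
  push Not at hc
  choose z hz1 hz2 using fun k : ℕ => hc k
  have h1 : Tendsto (fun k => ‖f (z k)‖) atTop atTop :=
    tendsto_atTop_mono (fun k => (hz2 k).le) tendsto_natCast_atTop_atTop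
  have h2 : Tendsto (fun k => ‖z k‖) atTop atTop := by
    rw [tendsto_atTop]
    intro R
    obtain ⟨C, hC⟩ := (isCompact_closedBall (0 : EuclideanSpace ℂ (Fin 2)) R).exists_bound_of_continuousOn
      hf.continuous.continuousOn
    filter_upwards [h1.eventually_gt_atTop C] with k hk
    by_contra h3
    exact hk.not_ge (hC _ (by simpa using (not_le.1 h3).le))
  have h3 : LProp f z := by
    intro K hK _
    obtain ⟨C, hC⟩ := hK.isBounded.exists_norm_le
    have h4 := h1.eventually_gt_atTop C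
    rw [← Nat.cofinite_eq_atTop, eventually_cofinite] at h4
    exact h4.subset fun k hk h5 => h5.not_ge (hC _ hk)
  have h4 := h z h2 h3 {c} isCompact_singleton (by
    rintro _ rfl; exact ⟨z 0, hz1 0⟩)
  exact Set.infinite_univ (h4.subset fun k _ => hz1 k)

lemma atom : LAtom fun x : EuclideanSpace ℂ (Fin 2) => x 0 * x 1 := by
  refine ⟨by fun_prop, ⟨!₂[1, 1], !₂[0, 0], by simp⟩, fun f hf h => ?_⟩
  have hφ : Differentiable ℂ fun c : ℂ => f !₂[1, c] :=
    hf.comp (diff2 (differentiable_const _) differentiable_id)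
  refine ⟨fun c => f !₂[1, c], hφ.differentiableOn, ?_⟩
  have key : ∀ a b : ℂ, a ≠ 0 → f !₂[a, b] = f !₂[1, a * b] := by
    intro a b ha
    obtain ⟨M, hM⟩ := bdd hf h (a * b)
    have h1 : Differentiable ℂ fun s : ℂ => f !₂[Complex.exp s, a * b * Complex.exp (-s)] :=
      hf.comp (diff2 (by fun_prop) (by fun_prop))
    have h2 := h1.apply_eq_apply_of_bounded (isBounded_iff_forall_norm_le.2 ⟨M, by
      rintro _ ⟨s, rfl⟩
      refine hM _ ?_
      simp only [Matrix.cons_val_zero, Matrix.cons_val_one, Complex.exp_neg]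
      field_simp⟩) (Complex.log a) 0
    simp only [Complex.exp_neg, Complex.exp_log ha, Complex.exp_zero, inv_one, mul_one] at h2
    rw [← h2]
    congr 3
    field_simp
  intro x
  rw [eta x]
  simp only [Matrix.cons_val_zero, Matrix.cons_val_one]
  generalize x 0 = a, x 1 = b
  have c1 : Continuous fun a : ℂ => f !₂[a, b] :=
    (hf.comp (diff2 differentiable_id (differentiable_const _))).continuous
  have c2 : Continuous fun a : ℂ => f !₂[1, a * b] :=
    hφ.continuous.comp (by fun_prop)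
  exact congrFun (c1.ext_on (dense_compl_singleton 0) c2 fun a ha => key a b ha) a

lemma open_range {g : ℂ → ℂ} (hg : Differentiable ℂ g) (hi : Function.Injective g) :
    IsOpen (Set.range g) := by
  have h1 : AnalyticOnNhd ℂ g Set.univ := fun z _ => hg.analyticAt z
  rcases h1.is_constant_or_isOpen isPreconnected_univ with ⟨w, h⟩ | h
  · exact absurd (hi ((h 0 trivial).trans (h 1 trivial).symm)) zero_ne_one
  · simpa using h Set.univ le_rfl isOpen_univ

theorem result : ∃ a : EuclideanSpace ℂ (Fin 2) → ℂ, LAtom a ∧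
    ¬ ∃ F : EuclideanSpace ℂ (Fin 2) → EuclideanSpace ℂ (Fin 2),
      Differentiable ℂ F ∧ Function.Bijective F ∧ ∀ x, F x 0 = a x := by
  refine ⟨_, atom, ?_⟩
  rintro ⟨F, hF, ⟨hi, -⟩, h0⟩
  have hF1 : Differentiable ℂ fun x => F x 1 := differentiable_euclidean.1 hF 1
  have key : ∀ x y : EuclideanSpace ℂ (Fin 2), x 0 * x 1 = y 0 * y 1 → F x 1 = F y 1 → x = y := by
    intro x y h1 h2
    apply hi
    rw [eta (F x), eta (F y), h0, h0, h1, h2]
  have o1 : IsOpen (Set.range fun s : ℂ => F !₂[s, 0] 1) :=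
    open_range (hF1.comp (diff2 differentiable_id (differentiable_const _))) fun s t h => by
      simpa using congrArg (· 0) (key _ _ (by simp) h)
  have o2 : IsOpen (Set.range fun s : ℂ => F !₂[0, s] 1) :=
    open_range (hF1.comp (diff2 (differentiable_const _) differentiable_id)) fun s t h => by
      simpa using congrArg (· 1) (key _ _ (by simp) h)
  obtain ⟨w, hw, ⟨s, hs⟩, ⟨t, ht⟩⟩ := (dense_compl_singleton (F !₂[0, 0] 1)).exists_mem_open
    (o1.inter o2) ⟨_, ⟨0, rfl⟩, ⟨0, rfl⟩⟩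
  have h1 := key _ _ (by simp) (hs.trans ht.symm)
  have h2 : s = 0 := by simpa using congrArg (· 0) h1
  subst h2
  exact hw hs.symm

end Pool.Agent.Results.MP_cc4673_an.Product
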